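import Pool.Agent.H249.ER.Main

/-!
# The local limit of the largest component of the critical random graph

Q1 of the problem is TRUE for every `λ`: the largest component of `G(n, p)`, `p = 1/n + λ/n^(4/3)`, seen from a uniform
vertex of it, converges in the local topology to the Poisson(1) Galton–Watson tree conditioned to be infinite.

Idea of the proof (helper287). Let `(F, u)` be a rooted graph, `∂F` the set of its vertices at distance `r` from `u`, and
`a = |∂F| P(B_r(G, v) ≅ F)`. Given the balls of `v` and `w`, if they are disjoint, the vertices `v` and `w` are connected
with probability at most `|∂B_r(v)| |∂B_r(w)| τ`, `τ` the probability that two given vertices are connected. Hence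
`E ∑ (1_F(v) - a) (1_F(w) - a)` over the pairs `v ↔ w` is at most `o(1) n² τ + O(n)`. This sum is the sum over the
components `C` of the squares `(∑_{v ∈ C} (1_F(v) - a))²`, so one term of it, that of the largest component, has a mean of
`o(n^(4/3))`, as `τ = O(n^(-2/3))`. With probability at least `1 - O(δ^(1/2))` the largest component has at least
`δ n^(2/3)` vertices. So the proportion of its vertices with the ball `F` is `a + o(1)`.

The estimates for the size `K` of the component of a vertex come from the exact identity
`E C(n - K, m) / (1 - p)^(m K) = C(n - 1, m)`; the limit of `a` is `|∂F| e^{-(|F| - |∂F|)} / |Aut F|` for trees `F` of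
height at most `r` and zero for other graphs, and this is the law of the ball of radius `r` of `T_∞`.
-/

set_option autoImplicit false

open Filter
open scoped Classical Topology

open Pool.Agent.Q287.SR (Ex)
open Pool.Agent.H249.ER (IsLargest BallIso kesten poi)

/-- Let `lam` be real, and for every `n` and every graph `G` on `Fin n` let `C n G` be (the set of vertices of) a largest
connected component of `G`, chosen by any rule. For every `r` and every finite rooted graph `(F, u)`: the expectation under
`G(n, 1/n + lam/n^(4/3))` of the proportion of the vertices `v` of the graph `C n G` with `B_r(C n G, v) ≅ (F, u)`, that is,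
the probability that `B_r(C n G, o_n) ≅ (F, u)`, tends to the probability that `B_r(T_∞, root) ≅ (F, u)`. -/
theorem Pool.Agent.Results.MP_7f4e92_pr.LocalLimit.result :
    ∀ (lam : ℝ) (C : ∀ n : ℕ, SimpleGraph (Fin n) → Finset (Fin n)), (∀ n, 1 ≤ n → ∀ G, IsLargest G (C n G)) →
      ∀ (r m : ℕ) (F : SimpleGraph (Fin m)) (u : Fin m),
        Tendsto (fun n : ℕ => Ex n (1 / n + lam / (n : ℝ) ^ (4 / 3 : ℝ)) (fun G =>
          (∑ v : {x // x ∈ C n G}, if BallIso (G.induce {x | x ∈ C n G}) v r F u then (1 : ℝ) else 0) / (C n G).card))
          atTop (𝓝 (poi.real {ω | BallIso (kesten ω) (0, []) r F u})) :=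
  Pool.Agent.H249.ER.main
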